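import Pool.Agent.H51.Hfc.Final
import Pool.Agent.H16.HD.Fin

/-!
# Whether every `HFC_w` space is dually discrete is independent of ZFC

All definitions used by the statement are in `Pool/Agent/H90/Frc/Stmt.lean` (first-order formulas of
set theory, satisfaction, models of ZFC, basic vocabulary) and `Pool/Agent/H51/Hfc/Stmt.lean` (the
statement `HfcStatement` about a structure `(M, E)` all of whose quantifiers range over `M`).

Both models are countable generic extensions of the universe of small sets (names in `Type 1` over a
partial order in `Type`).  In the first one (adding Cohen reals) some `HFC_w` space is not dually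
discrete.  The second one is given by the product of the partial order of all functions from a countable
ordinal to `2^ω`, ordered by extension, and the pseudo-product of `𝔠⁺` Cohen forcings (conditions with
countable support, a stronger condition changes only finitely many coordinates of the support); in it
every `HFC_w` subspace of `2^λ`, for every uncountable cardinal `λ`, is dually discrete.
-/

set_option autoImplicit false

namespace Pool.Agent.Results.MP_63e8ca_gt.Independent

open Pool.Agent.H90.Frc Pool.Agent.H51.Hfc

/-- There is a sentence `s` of the language of set theory which says, in every structure, that for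
some uncountable cardinal `λ` there is an `HFC_w` subspace of `2^λ` which is not dually discrete;
this sentence holds in some model of ZFC and fails in some model of ZFC. -/
theorem result : ∃ s : Fml 0,
    (∀ (M : Type) (E : M → M → Prop), Sat E s Fin.elim0 ↔ HfcStatement E) ∧
    (∃ (M : Type) (E : M → M → Prop), ZFC E ∧ Sat E s Fin.elim0) ∧
    ∃ (M : Type) (E : M → M → Prop), ZFC E ∧ ¬ Sat E s Fin.elim0 := by
  obtain ⟨s, hs⟩ := dfn_hfcStatement (n := 0)
  obtain ⟨M, E, hz, hE⟩ := exists_model_hfc
  obtain ⟨M', E', hz', hE'⟩ := Pool.Agent.H16.HD.exists_model_dd
  exact ⟨s, fun M E => hs M E _, ⟨M, E, hz, (hs M E _).2 hE⟩,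
    M', E', hz', fun h => hE' ((hs M' E' _).1 h)⟩

end Pool.Agent.Results.MP_63e8ca_gt.Independent
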