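import Pool.Agent.H64.Hfc3

/-!
Under the continuum hypothesis there is an `HFC_w` subspace of `2^ω₁` which is not dually discrete.
The index set is the well-ordered set of order type `ω₁`, the initial ordinal of the cardinal `ℵ₁`.
-/

open Set Cardinal

namespace Pool.Agent.Results.MP_63e8ca_gt.NotDuallyDiscrete

/-- The basic open set `[F * b]` of `2^Λ`: all `x : Λ → Bool` whose value at the `i`-th element, in
increasing order, of the `n`-element set `F` is `b i`. -/
def basic {Λ : Type} [LinearOrder Λ] {n : ℕ} (F : Finset Λ) (b : Fin n → Bool) :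
    Set (Λ → Bool) :=
  {x | ∃ h : F.card = n, ∀ i, x (F.orderEmbOfFin h i) = b i}

/-- `X ⊆ 2^Λ` is an `HFC_w` space: for every `n` and every uncountable family `P` of pairwise
disjoint `n`-element subsets of `Λ` there is a countable `Q ⊆ P` such that for each `b ∈ 2^n` the
set `X \ ⋃ {[F * b] : F ∈ Q}` is countable. -/
def IsHFCw {Λ : Type} [LinearOrder Λ] (X : Set (Λ → Bool)) : Prop :=
  ∀ (n : ℕ) (P : Set (Finset Λ)), (∀ F ∈ P, F.card = n) → P.PairwiseDisjoint id →
    ¬ P.Countable → ∃ Q ⊆ P, Q.Countable ∧ ∀ b : Fin n → Bool,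
      (X \ ⋃ F ∈ Q, basic F b).Countable

/-- A topological space is dually discrete if for every neighbourhood assignment `U` there is a set
`D`, discrete in its subspace topology, such that the sets `U y`, `y ∈ D`, cover the space. -/
def DuallyDiscrete (Y : Type) [TopologicalSpace Y] : Prop :=
  ∀ U : Y → Set Y, (∀ y, IsOpen (U y) ∧ y ∈ U y) →
    ∃ D : Set Y, DiscreteTopology D ∧ ⋃ y ∈ D, U y = Set.univ

theorem result (CH : continuum.{0} = ℵ₁) :
    ∃ X : Set ((ℵ₁ : Cardinal.{0}).ord.ToType → Bool), IsHFCw X ∧ ¬ DuallyDiscrete X := by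
  obtain ⟨X, hX, U, hU, hD⟩ := Pool.Agent.H64.Hfc.main (Ω := (ℵ₁ : Cardinal.{0}).ord.ToType) CH
    (mk_ord_toType _) (fun a => by
      have h := mk_Iio_lt a (by simp)
      rw [mk_ord_toType, lt_aleph_one_iff] at h
      exact Set.countable_coe_iff.1 (mk_le_aleph0_iff.1 h))
  refine ⟨X, hX, fun hdd => ?_⟩
  obtain ⟨D, hD1, hD2⟩ := hdd U hU
  exact hD D hD1 hD2

end Pool.Agent.Results.MP_63e8ca_gt.NotDuallyDiscrete
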